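import Pool.Agent.helper35.MF.Len

set_option autoImplicit false

/-!
# MP_141f81, Section 6a: the collar (second, independent copy)

`XS` is the finite set of letters, `T0` the lines, `Tt T0 XS` the words of at most `17` letters of area at most `82`.
From the count of separated words of at most five letters (N4) and the consistency at the one scale `7730` we get a
finite coarse set `D` (`CoarseF` with error `2`) with bounded balls.
-/

namespace Pool.Agent.helper36.MF

open Pool.Agent.helper35.MF Finset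

variable {X V : Type}

/-- the words of at most `17` letters of `XS` of area at most `82` -/
def Tt (T0 : Set (X →₀ ZMod 2)) (XS : Finset X) : Set (X →₀ ZMod 2) :=
  {g | (∃ l : List X, l.length ≤ 17 ∧ (∀ x ∈ l, x ∈ XS) ∧ wd l = g) ∧ g ∈ Ball T0 82}

/-- the input -/
structure ColIn (T0 : Set (X →₀ ZMod 2)) (XS P : Finset X) (role : X → V) (n K q C0 : ℕ) : Prop where
  words : ∀ vs : List V, vs ≠ [] → vs.length ≤ 5 → ∀ W : Finset (List X),
    (∀ w ∈ W, w.map role = vs ∧ ∀ x ∈ w, x ∈ XS) →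
    (∀ w ∈ W, ∀ w' ∈ W, w ≠ w' → wd w + wd w' ∉ Ball T0 (10 * vs.length - 8)) → W.card ≤ K * n
  cons : ∀ x ∈ XS, ∀ A : Finset X,
    (∀ y ∈ A, y ∈ XS ∧ role y = role x ∧ sy x + sy y ∈ Ball T0 7730) → A.card ≤ C0
  PXS : P ⊆ XS
  Prole : ∀ p ∈ P, ∀ p' ∈ P, role p = role p'
  big : n ≤ q * P.card
  npos : 0 < n
  Kpos : 0 < K

/-! ### general facts -/

theorem exists_net {α : Type*} (U : Finset α) (r : α → α → Prop) (hs : ∀ a b, r a b → r b a) :
    ∃ F ⊆ U, (∀ a ∈ F, ∀ b ∈ F, a ≠ b → ¬ r a b) ∧ ∀ u ∈ U, u ∈ F ∨ ∃ f ∈ F, r u f := by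
  classical
  set S : Finset (Finset α) := U.powerset.filter (fun F => ∀ a ∈ F, ∀ b ∈ F, a ≠ b → ¬ r a b) with hS
  have hne : S.Nonempty := ⟨∅, by rw [hS, mem_filter]; exact ⟨empty_mem_powerset _, by simp⟩⟩
  obtain ⟨F, hF, hmax⟩ := exists_max_image S Finset.card hne
  rw [hS, mem_filter, mem_powerset] at hF
  refine ⟨F, hF.1, hF.2, ?_⟩
  intro u hu
  by_contra hcon
  rw [not_or] at hcon
  obtain ⟨h1, h2⟩ := hcon
  push Not at h2
  have h3 : insert u F ∈ S := by
    rw [hS, mem_filter, mem_powerset]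
    refine ⟨insert_subset hu hF.1, ?_⟩
    intro a ha b hb hab
    rw [mem_insert] at ha hb
    rcases ha with rfl | ha
    · rcases hb with rfl | hb
      · exact absurd rfl hab
      · exact h2 b hb
    · rcases hb with rfl | hb
      · exact fun h => h2 a ha (hs _ _ h)
      · exact hF.2 a ha b hb hab
  have h4 := hmax _ h3
  rw [card_insert_of_notMem h1] at h4
  omega

theorem ball_scale {G : Type*} [AddCommGroup G] {T T0 : Set G} {c : ℕ} (h : ∀ t ∈ T, t ∈ Ball T0 c) {r : ℕ} {g : G}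
    (hg : g ∈ Ball T r) : g ∈ Ball T0 (c * r) := by
  obtain ⟨l, h1, h2, h3⟩ := hg
  have h4 : ∀ l : List G, (∀ x ∈ l, x ∈ T) → l.sum ∈ Ball T0 (c * l.length) := by
    intro l
    induction l with
    | nil => intro _; exact Ball.zero _ _
    | cons a l ih =>
      intro hl
      rw [List.sum_cons, List.length_cons, Nat.mul_succ, add_comm (c * l.length)]
      exact ball_add (h a (hl a (by simp))) (ih fun x hx => hl x (by simp [hx]))
  rw [← h3]
  exact Ball.mono (Nat.mul_le_mul_left c h1) (h4 l h2)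

theorem wd_append (l l' : List X) : wd (l ++ l') = wd l + wd l' := by
  simp [wd]

theorem wd_cons (x : X) (l : List X) : wd (x :: l) = sy x + wd l := by
  simp [wd]

theorem wd_nil : wd ([] : List X) = 0 := by
  simp [wd]

theorem wd_one (x : X) : wd [x] = sy x := by
  simp [wd]

/-- the words of at most `k` letters of `XS` -/
def Wl (XS : Finset X) (k : ℕ) : Set (X →₀ ZMod 2) := {g | ∃ l : List X, l.length ≤ k ∧ (∀ x ∈ l, x ∈ XS) ∧ wd l = g}

theorem Wl.zero (XS : Finset X) (k : ℕ) : (0 : X →₀ ZMod 2) ∈ Wl XS k := ⟨[], by simp, by simp, wd_nil⟩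

theorem Wl.mono {XS : Finset X} {k k' : ℕ} (h : k ≤ k') {g : X →₀ ZMod 2} (hg : g ∈ Wl XS k) : g ∈ Wl XS k' := by
  obtain ⟨l, h1, h2, h3⟩ := hg
  exact ⟨l, h1.trans h, h2, h3⟩

theorem Wl.add {XS : Finset X} {k k' : ℕ} {g g' : X →₀ ZMod 2} (hg : g ∈ Wl XS k) (hg' : g' ∈ Wl XS k') :
    g + g' ∈ Wl XS (k + k') := by
  obtain ⟨l, h1, h2, h3⟩ := hg
  obtain ⟨l', h1', h2', h3'⟩ := hg'
  refine ⟨l ++ l', by rw [List.length_append]; omega, ?_, by rw [wd_append, h3, h3']⟩
  intro x hx
  rcases List.mem_append.mp hx with hx | hx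
  · exact h2 x hx
  · exact h2' x hx

theorem Wl.one {XS : Finset X} {x : X} (hx : x ∈ XS) : sy x ∈ Wl XS 1 :=
  ⟨[x], by simp, by simpa using hx, wd_one x⟩

theorem Wl.finite (XS : Finset X) (k : ℕ) : (Wl XS k).Finite := by
  have h1 : (Wl XS k) ⊆ (fun l : List XS => wd (l.map Subtype.val)) '' {l : List XS | l.length ≤ k} := by
    rintro g ⟨l, h1, h2, h3⟩
    refine ⟨l.attach.map (fun x => ⟨x.1, h2 x.1 x.2⟩), by simpa using h1, ?_⟩
    simp only [List.map_map]
    rw [← h3]
    congr 1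
    have h4 : (Subtype.val ∘ fun x : {x // x ∈ l} => (⟨x.1, h2 x.1 x.2⟩ : XS)) = Subtype.val := rfl
    rw [h4, List.attach_map_subtype_val]
  exact ((List.finite_length_le XS k).image _).subset h1

/-- the number of the lists of roles of length at most `k` -/
noncomputable def NL (V : Type) (k : ℕ) : ℕ := {l : List V | l.length ≤ k}.ncard

section

variable [Finite V] {T0 : Set (X →₀ ZMod 2)} {XS P : Finset X} {role : X → V} {n K q C0 : ℕ}

/-- counting separated words of at most `k ≤ 5` letters -/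
theorem ColIn.count (h : ColIn T0 XS P role n K q C0) {k : ℕ} (hk1 : 1 ≤ k) (hk : k ≤ 5) (E : Finset (X →₀ ZMod 2))
    (hE : ∀ e ∈ E, e ∈ Wl XS k) (hs : ∀ e ∈ E, ∀ e' ∈ E, e ≠ e' → e + e' ∉ Ball T0 (10 * k - 8)) :
    E.card ≤ NL V k * (K * n) := by
  classical
  choose! w hw1 hw2 hw3 using hE
  have hfin : {l : List V | l.length ≤ k}.Finite := List.finite_length_le V k
  have h1 : E.card ≤ ∑ vs ∈ hfin.toFinset, (E.filter (fun e => (w e).map role = vs)).card := by
    refine (card_le_card (t := hfin.toFinset.biUnion fun vs => E.filter (fun e => (w e).map role = vs)) ?_).trans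
      card_biUnion_le
    intro e he
    rw [mem_biUnion]
    refine ⟨(w e).map role, ?_, ?_⟩
    · rw [Set.Finite.mem_toFinset, Set.mem_ofPred_eq, List.length_map]
      exact hw1 e he
    · rw [mem_filter]; exact ⟨he, rfl⟩
  have h2 : ∀ vs ∈ hfin.toFinset, (E.filter (fun e => (w e).map role = vs)).card ≤ K * n := by
    intro vs hvs
    rw [Set.Finite.mem_toFinset, Set.mem_ofPred_eq] at hvs
    by_cases hv : vs = []
    · have h3 : (E.filter (fun e => (w e).map role = vs)).card ≤ 1 := by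
        rw [card_le_one]
        intro e he e' he'
        rw [mem_filter] at he he'
        have e1 : w e = [] := by
          have := he.2; rw [hv] at this; exact List.map_eq_nil_iff.mp this
        have e2 : w e' = [] := by
          have := he'.2; rw [hv] at this; exact List.map_eq_nil_iff.mp this
        rw [← hw3 e he.1, ← hw3 e' he'.1, e1, e2]
      exact h3.trans (Nat.mul_pos h.Kpos h.npos)
    · have hinj : Set.InjOn w (E.filter (fun e => (w e).map role = vs) : Finset _) := by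
        intro e he e' he' hee
        rw [Finset.mem_coe, mem_filter] at he he'
        rw [← hw3 e he.1, ← hw3 e' he'.1, hee]
      rw [← card_image_of_injOn hinj]
      refine h.words vs hv (hvs.trans hk) _ ?_ ?_
      · intro l hl
        rw [mem_image] at hl
        obtain ⟨e, he, rfl⟩ := hl
        rw [mem_filter] at he
        exact ⟨he.2, hw2 e he.1⟩
      · intro l hl l' hl' hne
        rw [mem_image] at hl hl'
        obtain ⟨e, he, rfl⟩ := hl
        obtain ⟨e', he', rfl⟩ := hl'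
        rw [mem_filter] at he he'
        rw [hw3 e he.1, hw3 e' he'.1]
        intro hb
        exact hs e he.1 e' he'.1 (fun hh => hne (by rw [hh])) (Ball.mono (by omega) hb)
  refine h1.trans ((sum_le_sum h2).trans ?_)
  rw [sum_const, smul_eq_mul, NL, Set.ncard_eq_toFinset_card _ hfin]


theorem Ball.zero' {T : Set (X →₀ ZMod 2)} {r : ℕ} {g : X →₀ ZMod 2} (h : g = 0) : g ∈ Ball T r := by
  rw [h]; exact Ball.zero _ _

omit [Finite V] in
/-- the letters of `P` near a letter -/
theorem ColIn.near (h : ColIn T0 XS P role n K q C0) {p : X} (hp : p ∈ P) (A : Finset X) (hA : A ⊆ P)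
    (hc : ∀ y ∈ A, sy p + sy y ∈ Ball T0 7730) : A.card ≤ C0 :=
  h.cons p (h.PXS hp) A fun y hy => ⟨h.PXS (hA hy), h.Prole _ (hA hy) _ hp, hc y hy⟩

/-- bound for a set of words of at most four letters which are separated on `P` -/
theorem ColIn.cardF (h : ColIn T0 XS P role n K q C0) (F : Finset (X →₀ ZMod 2)) (hF : ∀ f ∈ F, f ∈ Wl XS 4)
    (hs : ∀ f ∈ F, ∀ f' ∈ F, f ≠ f' → ∀ p ∈ P, ∀ p' ∈ P, f + f' + (sy p + sy p') ∉ Ball T0 42) :
    F.card ≤ q * C0 * (NL V 5 * K) := by
  classical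
  obtain ⟨P', hP', hsep, hnet⟩ := exists_net P (fun p p' => sy p + sy p' ∈ Ball T0 42)
    (fun a b hab => by rw [add_comm]; exact hab)
  -- size of the net
  have h1 : P.card ≤ C0 * P'.card := by
    have h2 : P ⊆ P'.biUnion fun f => P.filter (fun p => sy f + sy p ∈ Ball T0 42) := by
      intro p hp
      rw [mem_biUnion]
      rcases hnet p hp with hpp | ⟨f, hf, hpf⟩
      · exact ⟨p, hpp, mem_filter.mpr ⟨hp, Ball.zero' (two_eq _)⟩⟩
      · exact ⟨f, hf, mem_filter.mpr ⟨hp, by rw [add_comm]; exact hpf⟩⟩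
    refine (card_le_card h2).trans ((card_biUnion_le_card_mul _ _ C0 ?_).trans (by rw [mul_comm]))
    intro f hf
    exact h.near (hP' hf) _ (filter_subset _ _) fun y hy => Ball.mono (by omega) (mem_filter.mp hy).2
  -- the products
  set E : Finset (X →₀ ZMod 2) := (F ×ˢ P').image (fun x => x.1 + sy x.2) with hE
  have hinj : Set.InjOn (fun x : (X →₀ ZMod 2) × X => x.1 + sy x.2) (F ×ˢ P' : Finset _) := by
    rintro ⟨f, p⟩ hfp ⟨f', p'⟩ hfp' heq
    rw [Finset.mem_coe, mem_product] at hfp hfp'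
    simp only at heq hfp hfp'
    have hz : f + f' + (sy p + sy p') = 0 := by
      have : f + f' + (sy p + sy p') = (f + sy p) + (f' + sy p') := by abel
      rw [this, heq, two_eq]
    have hff : f = f' := by
      by_contra hne
      exact hs f hfp.1 f' hfp'.1 hne p (hP' hfp.2) p' (hP' hfp'.2) (Ball.zero' hz)
    have hpp : p = p' := by
      by_contra hne
      refine hsep p hfp.2 p' hfp'.2 hne ?_
      rw [hff, two_eq, zero_add] at hz
      exact Ball.zero' hz
    rw [hff, hpp]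
  have h3 : E.card = F.card * P'.card := by
    rw [hE, card_image_of_injOn hinj, card_product]
  have h4 : E.card ≤ NL V 5 * (K * n) := by
    refine h.count (by omega) (by omega) E ?_ ?_
    · intro e he
      rw [hE, mem_image] at he
      obtain ⟨⟨f, p⟩, hfp, rfl⟩ := he
      rw [mem_product] at hfp
      exact Wl.add (k := 4) (k' := 1) (hF f hfp.1) (Wl.one (h.PXS (hP' hfp.2)))
    · intro e he e' he' hne
      rw [hE, mem_image] at he he'
      obtain ⟨⟨f, p⟩, hfp, rfl⟩ := he
      obtain ⟨⟨f', p'⟩, hfp', rfl⟩ := he'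
      rw [mem_product] at hfp hfp'
      simp only at hfp hfp' hne ⊢
      by_cases hff : f = f'
      · subst hff
        have hpp : p ≠ p' := fun hh => hne (by rw [hh])
        have e1 : f + sy p + (f + sy p') = sy p + sy p' := by
          have : f + sy p + (f + sy p') = (f + f) + (sy p + sy p') := by abel
          rw [this, two_eq, zero_add]
        rw [e1]
        exact hsep p hfp.2 p' hfp'.2 hpp
      · have e1 : f + sy p + (f' + sy p') = f + f' + (sy p + sy p') := by abel
        rw [e1]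
        exact hs f hfp.1 f' hfp'.1 hff p (hP' hfp.2) p' (hP' hfp'.2)
  -- conclusion
  have h5 : n * F.card ≤ n * (q * C0 * (NL V 5 * K)) := by
    calc n * F.card ≤ (q * P.card) * F.card := Nat.mul_le_mul_right _ h.big
      _ ≤ (q * (C0 * P'.card)) * F.card := Nat.mul_le_mul_right _ (Nat.mul_le_mul_left _ h1)
      _ = q * C0 * (F.card * P'.card) := by ring
      _ ≤ q * C0 * (NL V 5 * (K * n)) := by rw [← h3]; exact Nat.mul_le_mul_left _ h4
      _ = n * (q * C0 * (NL V 5 * K)) := by ring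
  exact Nat.le_of_mul_le_mul_left h5 h.npos

/-- bound for a set of separated words of at most two letters in a ball -/
theorem ColIn.cardN (h : ColIn T0 XS P role n K q C0) (E : Finset (X →₀ ZMod 2)) (hE : ∀ e ∈ E, e ∈ Wl XS 2)
    (hs : ∀ e ∈ E, ∀ e' ∈ E, e ≠ e' → e + e' ∉ Ball T0 44) (hb : ∀ e ∈ E, ∀ e' ∈ E, e + e' ∈ Ball T0 7708) :
    E.card ≤ q * C0 * (NL V 3 * K) := by
  classical
  set U : Finset (X →₀ ZMod 2) := (E ×ˢ P).image (fun x => x.1 + sy x.2) with hU
  obtain ⟨M, hM, hsep, hnet⟩ := exists_net U (fun g g' => g + g' ∈ Ball T0 22)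
    (fun a b hab => by rw [add_comm]; exact hab)
  have h1 : M.card ≤ NL V 3 * (K * n) := by
    refine h.count (by omega) (by omega) M ?_ (by simpa using hsep)
    intro e he
    have := hM he
    rw [hU, mem_image] at this
    obtain ⟨⟨f, p⟩, hfp, rfl⟩ := this
    rw [mem_product] at hfp
    exact Wl.add (k := 2) (k' := 1) (hE f hfp.1) (Wl.one (h.PXS hfp.2))
  have hnet' : ∀ x ∈ E ×ˢ P, ∃ m ∈ M, x.1 + sy x.2 + m ∈ Ball T0 22 := by
    intro x hx
    rcases hnet (x.1 + sy x.2) (by rw [hU]; exact mem_image_of_mem _ hx) with h2 | ⟨m, hm, h2⟩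
    · exact ⟨_, h2, Ball.zero' (two_eq _)⟩
    · exact ⟨m, hm, h2⟩
  choose! m hm hmb using hnet'
  have h2 : (E ×ˢ P).card ≤ C0 * M.card := by
    have h3 : ∀ m0 ∈ M, ((E ×ˢ P).filter (fun x => m x = m0)).card ≤ C0 := by
      intro m0 hm0
      have := hM hm0
      rw [hU, mem_image] at this
      obtain ⟨⟨e0, p0⟩, hep0, rfl⟩ := this
      rw [mem_product] at hep0
      simp only at hep0 ⊢
      have hinj : Set.InjOn (fun x : (X →₀ ZMod 2) × X => x.2)
          (((E ×ˢ P).filter (fun x => m x = e0 + sy p0) : Finset ((X →₀ ZMod 2) × X)) :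
            Set ((X →₀ ZMod 2) × X)) := by
        rintro ⟨e, p⟩ hep ⟨e', p'⟩ hep' hpp
        rw [Finset.mem_coe, mem_filter] at hep hep'
        simp only at hpp
        subst hpp
        have b1 := hmb _ hep.1
        have b2 := hmb _ hep'.1
        rw [hep.2] at b1
        rw [hep'.2] at b2
        have b3 := ball_add b1 b2
        have e1 : (e + sy p + (e0 + sy p0)) + (e' + sy p + (e0 + sy p0)) = e + e' := by
          have : (e + sy p + (e0 + sy p0)) + (e' + sy p + (e0 + sy p0)) =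
            (e + e') + ((sy p + sy p) + ((e0 + sy p0) + (e0 + sy p0))) := by abel
          rw [this, two_eq, two_eq, add_zero, add_zero]
        simp only at b3
        rw [e1] at b3
        have hee : e = e' := by
          by_contra hne
          exact hs e (mem_product.mp hep.1).1 e' (mem_product.mp hep'.1).1 hne b3
        rw [hee]
      rw [← card_image_of_injOn hinj]
      refine h.near hep0.2 _ ?_ ?_
      · intro y hy
        rw [mem_image] at hy
        obtain ⟨x, hx, rfl⟩ := hy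
        exact (mem_product.mp (mem_filter.mp hx).1).2
      · intro y hy
        rw [mem_image] at hy
        obtain ⟨⟨e, p⟩, hx, rfl⟩ := hy
        rw [mem_filter] at hx
        have b1 := hmb _ hx.1
        rw [hx.2] at b1
        have b2 := hb e (mem_product.mp hx.1).1 e0 hep0.1
        have b3 := ball_add b1 b2
        have e1 : (e + sy p + (e0 + sy p0)) + (e + e0) = sy p0 + sy p := by
          have : (e + sy p + (e0 + sy p0)) + (e + e0) = (e + e) + (e0 + e0) + (sy p0 + sy p) := by abel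
          rw [this, two_eq, two_eq, add_zero, zero_add]
        simp only at b3
        rw [e1] at b3
        exact b3
    calc (E ×ˢ P).card ≤ ∑ m0 ∈ M, ((E ×ˢ P).filter (fun x => m x = m0)).card := by
          rw [card_eq_sum_card_fiberwise (f := m) (t := M)]
          intro x hx
          exact hm x hx
      _ ≤ ∑ _m0 ∈ M, C0 := sum_le_sum h3
      _ = C0 * M.card := by rw [sum_const, smul_eq_mul, mul_comm]
  rw [card_product] at h2
  have h5 : n * E.card ≤ n * (q * C0 * (NL V 3 * K)) := by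
    calc n * E.card ≤ (q * P.card) * E.card := Nat.mul_le_mul_right _ h.big
      _ = q * (E.card * P.card) := by ring
      _ ≤ q * (C0 * M.card) := Nat.mul_le_mul_left _ h2
      _ ≤ q * (C0 * (NL V 3 * (K * n))) := Nat.mul_le_mul_left _ (Nat.mul_le_mul_left _ h1)
      _ = n * (q * C0 * (NL V 3 * K)) := by ring
  exact Nat.le_of_mul_le_mul_left h5 h.npos


/-! ### sums of subsets -/

open Classical in
/-- the span of `F` -/
noncomputable def Sp (F : Finset (X →₀ ZMod 2)) : Finset (X →₀ ZMod 2) := F.powerset.image (fun s => ∑ f ∈ s, f)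

omit [Finite V] in
theorem Sp_zero (F : Finset (X →₀ ZMod 2)) : 0 ∈ Sp F := by
  classical
  rw [Sp, mem_image]
  exact ⟨∅, empty_mem_powerset _, by simp⟩

omit [Finite V] in
theorem Sp_mem {F : Finset (X →₀ ZMod 2)} {f : X →₀ ZMod 2} (hf : f ∈ F) : f ∈ Sp F := by
  classical
  rw [Sp, mem_image]
  exact ⟨{f}, by rw [mem_powerset]; simpa using hf, by simp⟩

omit [Finite V] in
theorem Sp_add {F : Finset (X →₀ ZMod 2)} {a b : X →₀ ZMod 2} (ha : a ∈ Sp F) (hb : b ∈ Sp F) : a + b ∈ Sp F := by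
  classical
  rw [Sp, mem_image] at ha hb ⊢
  obtain ⟨s, hs, rfl⟩ := ha
  obtain ⟨t, ht, rfl⟩ := hb
  rw [mem_powerset] at hs ht
  refine ⟨(s \ t) ∪ (t \ s), ?_, ?_⟩
  · rw [mem_powerset]
    exact union_subset (sdiff_subset.trans hs) (sdiff_subset.trans ht)
  · rw [sum_union (by
      rw [disjoint_left]; intro x hx hx'
      rw [mem_sdiff] at hx hx'
      exact hx.2 hx'.1)]
    have h1 : ∑ f ∈ s, f = ∑ f ∈ s \ t, f + ∑ f ∈ s ∩ t, f := by
      rw [← sum_union (disjoint_sdiff_inter s t), sdiff_union_inter]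
    have h2 : ∑ f ∈ t, f = ∑ f ∈ t \ s, f + ∑ f ∈ s ∩ t, f := by
      rw [inter_comm, ← sum_union (disjoint_sdiff_inter t s), sdiff_union_inter]
    rw [h1, h2]
    have e : (∑ f ∈ s \ t, f + ∑ f ∈ s ∩ t, f) + (∑ f ∈ t \ s, f + ∑ f ∈ s ∩ t, f) =
      (∑ f ∈ s \ t, f + ∑ f ∈ t \ s, f) + (∑ f ∈ s ∩ t, f + ∑ f ∈ s ∩ t, f) := by abel
    rw [e, two_eq, add_zero]

omit [Finite V] in
theorem Sp_card (F : Finset (X →₀ ZMod 2)) : (Sp F).card ≤ 2 ^ F.card := by
  classical
  rw [Sp]
  exact card_image_le.trans (by rw [card_powerset])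

omit [Finite V] in
theorem Sp_word {F : Finset (X →₀ ZMod 2)} {a : X →₀ ZMod 2} (ha : a ∈ Sp F) :
    ∃ fs : List (X →₀ ZMod 2), fs.length ≤ F.card ∧ (∀ f ∈ fs, f ∈ F) ∧ a = fs.sum := by
  classical
  rw [Sp, mem_image] at ha
  obtain ⟨s, hs, rfl⟩ := ha
  rw [mem_powerset] at hs
  refine ⟨s.toList, ?_, ?_, ?_⟩
  · rw [length_toList]; exact card_le_card hs
  · intro f hf
    exact hs (mem_toList.mp hf)
  · rw [sum_toList]

/-! ### the collar -/

/-- the bound of `F` -/
noncomputable def FB (V : Type) (K q C0 : ℕ) : ℕ := q * C0 * (NL V 5 * K)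

/-- the bound of the balls -/
noncomputable def MB (V : Type) (K q C0 : ℕ) : ℕ :=
  2 ^ FB V K q C0 * (q * C0 * (NL V 3 * K) + (Nat.card V * C0 + 1))

omit [Finite V] in
theorem Tt_of {g : X →₀ ZMod 2} (hg : g ∈ Wl XS 17) (hb : g ∈ Ball T0 82) : g ∈ Tt T0 XS := ⟨hg, hb⟩

omit [Finite V] in
theorem Tt_ball {r : ℕ} {g : X →₀ ZMod 2} (hg : g ∈ Ball (Tt T0 XS) r) : g ∈ Ball T0 (82 * r) :=
  ball_scale (fun _ ht => ht.2) hg


theorem ColIn.countW (h : ColIn T0 XS P role n K q C0) {k : ℕ} (hk1 : 1 ≤ k) (hk : k ≤ 5)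
    (W0 W : Finset (X →₀ ZMod 2)) (hW : ∀ w ∈ W, ∃ ω ∈ W0, w + ω ∈ Wl XS k)
    (hs : ∀ w ∈ W, ∀ w' ∈ W, w ≠ w' → w + w' ∈ Wl XS (2 * k) → w + w' ∉ Ball T0 (10 * k - 8)) :
    W.card ≤ W0.card * (NL V k * (K * n)) := by
  classical
  choose! om hom hw using hW
  have h1 : ∀ ω ∈ W0, (W.filter (fun w => om w = ω)).card ≤ NL V k * (K * n) := by
    intro ω _
    have hinj : Set.InjOn (fun w => w + ω) ((W.filter (fun w => om w = ω) : Finset (X →₀ ZMod 2)) :
        Set (X →₀ ZMod 2)) := by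
      intro a _ b _ hab
      exact add_right_cancel hab
    rw [← card_image_of_injOn hinj]
    refine h.count hk1 hk _ ?_ ?_
    · intro e he
      rw [mem_image] at he
      obtain ⟨w, hw', rfl⟩ := he
      rw [mem_filter] at hw'
      have := hw w hw'.1
      rwa [hw'.2] at this
    · intro e he e' he' hne hb
      rw [mem_image] at he he'
      obtain ⟨w, hw1, rfl⟩ := he
      obtain ⟨w', hw2, rfl⟩ := he'
      rw [mem_filter] at hw1 hw2
      have e1 : w + ω + (w' + ω) = w + w' := by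
        have : w + ω + (w' + ω) = (w + w') + (ω + ω) := by abel
        rw [this, two_eq, add_zero]
      rw [e1] at hb
      refine hs w hw1.1 w' hw2.1 (fun hh => hne (by rw [hh])) ?_ hb
      rw [← e1, two_mul]
      refine Wl.add ?_ ?_
      · have := hw w hw1.1
        rwa [hw1.2] at this
      · have := hw w' hw2.1
        rwa [hw2.2] at this
  calc W.card = ∑ ω ∈ W0, (W.filter (fun w => om w = ω)).card := by
        rw [card_eq_sum_card_fiberwise (f := om) (t := W0)]
        intro x hx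
        exact hom x hx
    _ ≤ ∑ _ω ∈ W0, NL V k * (K * n) := sum_le_sum h1
    _ = W0.card * (NL V k * (K * n)) := by rw [sum_const, smul_eq_mul]

/-- **The collar.** -/
theorem collar (h : ColIn T0 XS P role n K q C0) :
    ∃ D F : Set (X →₀ ZMod 2), D.Finite ∧ CoarseF (Tt T0 XS) D F 2 17 (FB V K q C0) ∧ (∀ x ∈ XS, sy x ∈ D) ∧
      (∀ u ∈ D, {v | v ∈ D ∧ u + v ∈ Ball (Tt T0 XS) ((17 + 6) * 2 + 1)}.ncard ≤ MB V K q C0) ∧
      (∀ b, ∀ p ∈ XS, ∀ Q ⊆ XS, (∀ y ∈ Q, sy p + sy y ∈ Ball (Tt T0 XS) b) →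
        Q.card ≤ MB V K q C0 ^ HH b (FB V K q C0) 17) ∧
      (∀ W : Finset (X →₀ ZMod 2), (∀ w ∈ W, ∃ f ∈ D, ∃ p ∈ XS, w = f + sy p) →
        (∀ w ∈ W, ∀ w' ∈ W, w ≠ w' → w + w' ∉ Ball (Tt T0 XS) 1) →
        W.card ≤ 2 ^ FB V K q C0 * (NL V 3 * K) * n) ∧
      ∀ W : Finset (X →₀ ZMod 2), (∀ w ∈ W, w ∈ D) →
        (∀ w ∈ W, ∀ w' ∈ W, w ≠ w' → w + w' ∉ AddSubgroup.closure (Tt T0 XS)) →
        W.card ≤ 2 ^ FB V K q C0 * (NL V 2 * K) * n := by
  classical
  obtain ⟨p0, hp0⟩ : P.Nonempty := by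
    rw [← card_pos]
    rcases Nat.eq_zero_or_pos P.card with h0 | h0
    · have := h.big
      rw [h0, mul_zero] at this
      have := h.npos
      omega
    · exact h0
  -- the set `F`
  obtain ⟨F, hFU, hFs, hFn⟩ := exists_net (Wl.finite XS 4).toFinset
    (fun f f' => ∃ p ∈ P, ∃ p' ∈ P, f + f' + (sy p + sy p') ∈ Ball T0 42)
    (by rintro a b ⟨p, hp, p', hp', hb⟩; exact ⟨p, hp, p', hp', by rw [add_comm b a]; exact hb⟩)
  have hF4 : ∀ f ∈ F, f ∈ Wl XS 4 := fun f hf => (Set.Finite.mem_toFinset _).mp (hFU hf)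
  have hFc : F.card ≤ FB V K q C0 := by
    refine h.cardF F hF4 ?_
    intro f hf f' hf' hne p hp p' hp' hb
    exact hFs f hf f' hf' hne ⟨p, hp, p', hp', hb⟩
  have hFn' : ∀ g ∈ Wl XS 4, ∃ f ∈ F, ∃ p ∈ P, ∃ p' ∈ P, g + f + (sy p + sy p') ∈ Ball T0 42 := by
    intro g hg
    rcases hFn g ((Set.Finite.mem_toFinset _).mpr hg) with h1 | ⟨f, hf, p, hp, p', hp', hb⟩
    · exact ⟨g, h1, p0, hp0, p0, hp0, Ball.zero' (by rw [two_eq, two_eq, add_zero])⟩
    · exact ⟨f, hf, p, hp, p', hp', hb⟩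
  -- the net `N`
  obtain ⟨N, hNU, hNs, hNn⟩ := exists_net (Wl.finite XS 2).toFinset (fun f f' => f + f' ∈ Ball T0 44)
    (fun a b hab => by rw [add_comm]; exact hab)
  have hN2 : ∀ f ∈ N, f ∈ Wl XS 2 := fun f hf => (Set.Finite.mem_toFinset _).mp (hNU hf)
  have hNn' : ∀ g ∈ Wl XS 2, ∃ f ∈ N, g + f ∈ Ball T0 44 := by
    intro g hg
    rcases hNn g ((Set.Finite.mem_toFinset _).mpr hg) with h1 | ⟨f, hf, hb⟩
    · exact ⟨g, h1, Ball.zero' (two_eq _)⟩
    · exact ⟨f, hf, hb⟩
  set N1 : Finset (X →₀ ZMod 2) := N ∪ (XS.image sy ∪ {0}) with hN1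
  have hN12 : ∀ f ∈ N1, f ∈ Wl XS 2 := by
    intro f hf
    rw [hN1, mem_union, mem_union, mem_image, mem_singleton] at hf
    rcases hf with hf | ⟨x, hx, rfl⟩ | rfl
    · exact hN2 f hf
    · exact Wl.mono (by omega) (Wl.one hx)
    · exact Wl.zero _ _
  set D : Set (X →₀ ZMod 2) := {g | ∃ a ∈ N1, ∃ w ∈ Sp F, g = a + w} with hD
  have hDN : ∀ a ∈ N1, a ∈ D := fun a ha => ⟨a, ha, 0, Sp_zero F, by rw [add_zero]⟩
  have h0D : (0 : X →₀ ZMod 2) ∈ D := hDN 0 (by rw [hN1]; simp)
  have hsy : ∀ x ∈ XS, sy x ∈ D := fun x hx => hDN _ (by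
    rw [hN1, mem_union, mem_union, mem_image]
    exact Or.inr (Or.inl ⟨x, hx, rfl⟩))
  have hDfin : D.Finite := by
    refine ((N1 ×ˢ Sp F).image (fun x => x.1 + x.2)).finite_toSet.subset ?_
    rintro g ⟨a, ha, w, hw, rfl⟩
    rw [Finset.mem_coe, mem_image]
    exact ⟨(a, w), mem_product.mpr ⟨ha, hw⟩, rfl⟩
  have hwl : ∀ k ≤ 17, ∀ g ∈ Wl XS k, ∃ l : List X, l.length ≤ 17 ∧ (∀ x ∈ l, sy x ∈ D) ∧ wd l = g := by
    rintro k hk g ⟨l, h1, h2, h3⟩
    exact ⟨l, h1.trans hk, fun x hx => hsy x (h2 x hx), h3⟩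
  have hC : CoarseF (Tt T0 XS) D (F : Set (X →₀ ZMod 2)) 2 17 (FB V K q C0) :=
    { line := by
        rintro t ⟨h1, _⟩
        obtain ⟨l, h1, h2, h3⟩ := hwl 17 le_rfl t h1
        exact ⟨l, h1, h2, h3.symm⟩
      zero := h0D
      add := by
        rintro u ⟨a, ha, w, hw, rfl⟩ v ⟨a', ha', w', hw', rfl⟩
        obtain ⟨f, hf, p, hp, p', hp', hb⟩ := hFn' (a + a') (Wl.add (k := 2) (k' := 2) (hN12 a ha) (hN12 a' ha'))
        have hpp : sy p + sy p' ∈ Wl XS 2 := Wl.add (k := 1) (k' := 1) (Wl.one (h.PXS hp)) (Wl.one (h.PXS hp'))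
        obtain ⟨c, hc, hb'⟩ := hNn' (sy p + sy p') hpp
        refine ⟨c + (w + w' + f), ⟨c, ?_, w + w' + f, Sp_add (Sp_add hw hw') (Sp_mem hf), rfl⟩, ?_⟩
        · rw [hN1, mem_union]; exact Or.inl hc
        · have e1 : a + w + (a' + w') + (c + (w + w' + f)) =
              (a + a' + f + (sy p + sy p')) + (sy p + sy p' + c) := by
            have e2 : a + w + (a' + w') + (c + (w + w' + f)) = (a + a' + f + c) + ((w + w) + (w' + w')) := by abel
            have e3 : (a + a' + f + (sy p + sy p')) + (sy p + sy p' + c) =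
              (a + a' + f + c) + ((sy p + sy p') + (sy p + sy p')) := by abel
            rw [e2, e3, two_eq w, two_eq w', two_eq (sy p + sy p'), add_zero]
          rw [e1]
          refine ball_add (r := 1) (r' := 1) (Ball.one (Tt_of ?_ (Ball.mono (by omega) hb)))
            (Ball.one (Tt_of ?_ (Ball.mono (by omega) hb')))
          · refine Wl.mono (k := 2 + 2 + 4 + 2) (by omega) ?_
            exact Wl.add (Wl.add (Wl.add (hN12 a ha) (hN12 a' ha')) (hF4 f hf)) hpp
          · exact Wl.mono (k := 2 + 2) (by omega) (Wl.add hpp (hN2 c hc))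
      short := by
        intro f hf
        obtain ⟨l, h1, h2, h3⟩ := hwl 4 (by omega) f (hF4 f hf)
        refine ⟨⟨0, by rw [hN1]; simp, f, Sp_mem hf, by rw [zero_add]⟩, l, h1, h2, h3.symm⟩
      addF := by
        rintro u ⟨a, ha, w, hw, rfl⟩ f hf
        exact ⟨a, ha, w + f, Sp_add hw (Sp_mem hf), by rw [add_assoc]⟩
      word := by
        rintro u ⟨a, ha, w, hw, rfl⟩
        obtain ⟨l, h1, h2, h3⟩ := hwl 2 (by omega) a (hN12 a ha)
        obtain ⟨fs, g1, g2, g3⟩ := Sp_word hw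
        refine ⟨l, h1, h2, by rw [h3]; exact hDN a ha, fs, g1.trans hFc, g2, by rw [h3, g3]⟩ }
  -- the balls
  have hball : ∀ u ∈ D, {v | v ∈ D ∧ u + v ∈ Ball (Tt T0 XS) ((17 + 6) * 2 + 1)}.ncard ≤ MB V K q C0 := by
    intro u _
    set B : (X →₀ ZMod 2) → Finset (X →₀ ZMod 2) := fun w => N1.filter (fun a => u + a + w ∈ Ball T0 3854) with hB
    have h1 : {v | v ∈ D ∧ u + v ∈ Ball (Tt T0 XS) ((17 + 6) * 2 + 1)} ⊆
        (((Sp F).biUnion fun w => (B w).image (fun a => a + w) : Finset (X →₀ ZMod 2)) : Set (X →₀ ZMod 2)) := by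
      rintro v ⟨⟨a, ha, w, hw, rfl⟩, hv⟩
      rw [Finset.mem_coe, mem_biUnion]
      refine ⟨w, hw, mem_image.mpr ⟨a, ?_, rfl⟩⟩
      rw [hB, mem_filter]
      refine ⟨ha, ?_⟩
      have := Tt_ball hv
      rw [add_assoc]
      exact this
    refine (Set.ncard_le_ncard h1 (Finset.finite_toSet _)).trans ?_
    rw [Set.ncard_coe_finset]
    have h2 : ∀ w ∈ Sp F, ((B w).image (fun a => a + w)).card ≤
        q * C0 * (NL V 3 * K) + (Nat.card V * C0 + 1) := by
      intro w _
      refine card_image_le.trans ?_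
      have hd : ∀ a a' : X →₀ ZMod 2, u + a + w ∈ Ball T0 3854 → u + a' + w ∈ Ball T0 3854 →
          a + a' ∈ Ball T0 7708 := by
        intro a a' ha ha'
        have h3 := ball_add ha ha'
        have e1 : u + a + w + (u + a' + w) = a + a' := by
          have : u + a + w + (u + a' + w) = (a + a') + ((u + u) + (w + w)) := by abel
          rw [this, two_eq, two_eq, add_zero, add_zero]
        rwa [e1] at h3
      have h3 : B w ⊆ N.filter (fun a => u + a + w ∈ Ball T0 3854) ∪
          ((XS.filter (fun x => u + sy x + w ∈ Ball T0 3854)).image sy ∪ {0}) := by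
        intro a ha
        rw [hB, mem_filter, hN1, mem_union, mem_union, mem_image, mem_singleton] at ha
        obtain ⟨ha, hb⟩ := ha
        rw [mem_union, mem_union, mem_filter, mem_image, mem_singleton]
        rcases ha with ha | ⟨x, hx, rfl⟩ | ha
        · exact Or.inl ⟨ha, hb⟩
        · exact Or.inr (Or.inl ⟨x, mem_filter.mpr ⟨hx, hb⟩, rfl⟩)
        · exact Or.inr (Or.inr ha)
      refine (card_le_card h3).trans ((card_union_le _ _).trans (Nat.add_le_add ?_ ?_))
      · refine h.cardN _ (fun e he => hN2 e (mem_filter.mp he).1) ?_ ?_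
        · intro e he e' he' hne
          exact hNs e (mem_filter.mp he).1 e' (mem_filter.mp he').1 hne
        · intro e he e' he'
          exact hd e e' (mem_filter.mp he).2 (mem_filter.mp he').2
      · refine (card_union_le _ _).trans (Nat.add_le_add (card_image_le.trans ?_) (by simp))
        set A : Finset X := XS.filter (fun x => u + sy x + w ∈ Ball T0 3854) with hA
        have : Fintype V := Fintype.ofFinite V
        have h4 : A.card ≤ C0 * (A.image role).card := by
          refine card_le_mul_card_image A C0 ?_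
          intro v hv
          rw [mem_image] at hv
          obtain ⟨x, hx, rfl⟩ := hv
          rw [hA, mem_filter] at hx
          refine h.cons x hx.1 _ ?_
          intro y hy
          rw [mem_filter, hA, mem_filter] at hy
          exact ⟨hy.1.1, hy.2, Ball.mono (by omega) (hd _ _ hx.2 hy.1.2)⟩
        refine h4.trans ?_
        rw [mul_comm]
        refine Nat.mul_le_mul_right _ ?_
        rw [Nat.card_eq_fintype_card]
        exact card_le_univ _
    refine (card_biUnion_le_card_mul _ _ _ h2).trans ?_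
    rw [MB]
    exact Nat.mul_le_mul_right _ ((Sp_card F).trans (Nat.pow_le_pow_right (by omega) hFc))
  refine ⟨D, F, hDfin, hC, hsy, hball, ?_, ?_, ?_⟩
  · intro b p hp Q hQ hQb
    have h1 := hC.ball_all (M := MB V K q C0) (fun u hu => ⟨hDfin.subset fun v hv => hv.1, hball u hu⟩) b
      (sy p) (hsy p hp)
    refine le_trans ?_ h1.2
    have h2 : ((Q.image sy : Finset (X →₀ ZMod 2)) : Set (X →₀ ZMod 2)) ⊆
        {v | v ∈ D ∧ sy p + v ∈ Ball (Tt T0 XS) b} := by
      intro v hv
      rw [Finset.mem_coe, mem_image] at hv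
      obtain ⟨y, hy, rfl⟩ := hv
      exact ⟨hsy y (hQ hy), hQb y hy⟩
    have h3 := Set.ncard_le_ncard h2 h1.1
    rw [Set.ncard_coe_finset, card_image_of_injective _ (Finsupp.single_left_injective one_ne_zero)] at h3
    exact h3
  · intro W hW hs
    have h1 := h.countW (k := 3) (by omega) (by omega) (Sp F) W ?_ ?_
    · refine h1.trans ?_
      have h2 : (Sp F).card ≤ 2 ^ FB V K q C0 := (Sp_card F).trans (Nat.pow_le_pow_right (by omega) hFc)
      calc (Sp F).card * (NL V 3 * (K * n)) ≤ 2 ^ FB V K q C0 * (NL V 3 * (K * n)) := Nat.mul_le_mul_right _ h2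
        _ = 2 ^ FB V K q C0 * (NL V 3 * K) * n := by ring
    · intro w hw
      obtain ⟨f, ⟨a, ha, ω, hω, rfl⟩, p, hp, rfl⟩ := hW w hw
      refine ⟨ω, hω, ?_⟩
      have e1 : a + ω + sy p + ω = a + sy p := by
        have : a + ω + sy p + ω = a + sy p + (ω + ω) := by abel
        rw [this, two_eq, add_zero]
      rw [e1]
      exact Wl.add (k := 2) (k' := 1) (hN12 a ha) (Wl.one hp)
    · intro w hw w' hw' hne hl hb
      exact hs w hw w' hw' hne (Ball.one (Tt_of (Wl.mono (by omega) hl) (Ball.mono (by omega) hb)))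
  · intro W hW hs
    have h1 := h.countW (k := 2) (by omega) (by omega) (Sp F) W ?_ ?_
    · refine h1.trans ?_
      have h2 : (Sp F).card ≤ 2 ^ FB V K q C0 := (Sp_card F).trans (Nat.pow_le_pow_right (by omega) hFc)
      calc (Sp F).card * (NL V 2 * (K * n)) ≤ 2 ^ FB V K q C0 * (NL V 2 * (K * n)) := Nat.mul_le_mul_right _ h2
        _ = 2 ^ FB V K q C0 * (NL V 2 * K) * n := by ring
    · intro w hw
      obtain ⟨a, ha, ω, hω, rfl⟩ := hW w hw
      refine ⟨ω, hω, ?_⟩
      rw [add_assoc, two_eq, add_zero]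
      exact hN12 a ha
    · intro w hw w' hw' hne hl hb
      exact hs w hw w' hw' hne
        (AddSubgroup.subset_closure (Tt_of (Wl.mono (by omega) hl) (Ball.mono (by omega) hb)))

end

end Pool.Agent.helper36.MF
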