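import Pool.Agent.MF.MatB
import Pool.Agent.MF.Frame2

set_option autoImplicit false

/-!
# MP_141f81, Section 9: density of the values of dense sets of rows (CNT)
-/

namespace Pool.Agent.helper36.MF

open Finset Pool.Agent.MF

section

variable {N : Type} [AddCommGroup N] [Fintype N] [DecidableEq N] {M : Mat N} {n T : ℕ} {R S S2 : Finset (N → Fin n)}
  {U : Type} [AddCommGroup U] [Fintype U] [DecidableEq U] {π : N → Fin n → U} {κ : ℝ}

/-- the constant -/
noncomputable def CN (κ : ℝ) (T : ℕ) : ℕ := ⌈(T : ℝ) ^ 2 / κ⌉₊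

omit [DecidableEq U] [AddCommGroup U] [Fintype U] in
/-- there are rows in `S2` -/
theorem ne_S2 (hn : 0 < n) (hκ : 0 < κ) (hJ : JCOut M univ κ S S2) : S2.Nonempty := by
  rw [← card_pos]
  have h1 := hJ.2.1
  have hnr : (0 : ℝ) < (n : ℝ) := by exact_mod_cast hn
  have h2 : (0 : ℝ) < κ * (n : ℝ) ^ M.r := by positivity
  exact_mod_cast h2.trans_le h1

/-- **CNT.** The values of a dense set of rows of one sub-structure have positive density. -/
theorem cnt (h : EMOut M n T R S U π) (hκ : 0 < κ) (hJ : JCOut M univ κ S S2) (τ : Finset N)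
    (η : N → Fin n) (hη : η ∈ S2) (v : N) (hv : ¬ M.InCl τ v) (m : ℕ) (Q : Finset (N → Fin n))
    (hQ : Q ⊆ sub S2 τ η) (hm : (sub S2 τ η).card ≤ m * Q.card) :
    Fintype.card U ≤ m * CN κ T * (Q.image fun ρ => π v (ρ v)).card := by
  classical
  have hn : 0 < n := Fin.pos (η 0)
  have hv0 : v ≠ 0 := fun h0 => hv (by rw [h0]; exact Mat.inCl_zero _)
  have hS : S ⊆ R := by
    obtain ⟨κ0, _, hJ0⟩ := h.jc
    exact hJ0.1
  have hSR : S2 ⊆ R := hJ.1.trans hS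
  -- size of the sub-structure
  have h1 : κ * (n : ℝ) ^ (M.r - M.rk τ) ≤ ((sub S2 τ η).card : ℝ) := (hJ.2.2 τ (mem_univ _) η hη).1
  have hrk : M.rk (insert v τ) = M.rk τ + 1 := Mat.rk_insert_of_not hv
  have hr : M.rk τ + 1 ≤ M.r := by rw [← hrk]; exact Mat.rk_le_r _
  -- symbols
  set Y : Finset (Fin n) := Q.image (fun ρ => ρ v) with hY
  have h2 : Q.card ≤ n ^ (M.r - M.rk τ - 1) * Y.card := by
    rw [hY]
    refine card_le_mul_card_image Q _ ?_
    intro y hy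
    rw [mem_image] at hy
    obtain ⟨ρ0, hρ0, rfl⟩ := hy
    have h3 : Q.filter (fun ρ => ρ v = ρ0 v) ⊆ sub R (insert v τ) ρ0 := by
      intro ρ hρ
      rw [mem_filter] at hρ
      have e1 := (Pool.Agent.MF.mem_sub).1 (hQ hρ.1)
      have e2 := (Pool.Agent.MF.mem_sub).1 (hQ hρ0)
      rw [Pool.Agent.MF.mem_sub]
      refine ⟨hSR e1.1, ?_⟩
      intro w hw
      rw [mem_insert] at hw
      rcases hw with rfl | hw
      · exact hρ.2.symm
      · exact (e2.2 w hw).symm.trans (e1.2 w hw)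
    refine (card_le_card h3).trans ?_
    have h4 := Pool.Agent.MF.card_sub_le h.exact (insert v τ) ρ0
    rw [hrk] at h4
    exact h4.trans (le_of_eq (by congr 1))
  -- values
  have h5 : Y.card ≤ T * (Y.image (π v)).card := by
    refine card_le_mul_card_image Y _ ?_
    intro w hw
    refine (card_le_card ?_).trans (h.fib v w hv0)
    intro y hy
    rw [mem_filter, hY, mem_image] at hy
    obtain ⟨⟨ρ, hρ, rfl⟩, hy2⟩ := hy
    rw [mem_filter]
    exact ⟨mem_univ _, ⟨ρ, hSR ((Pool.Agent.MF.mem_sub).1 (hQ hρ)).1, rfl⟩, hy2⟩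
  have h6 : Y.image (π v) = Q.image fun ρ => π v (ρ v) := by
    rw [hY, image_image]; rfl
  rw [h6] at h5
  set V : ℕ := (Q.image fun ρ => π v (ρ v)).card with hV
  -- the computation
  have hnr : (0 : ℝ) < (n : ℝ) := by exact_mod_cast hn
  have h7 : κ * (n : ℝ) ^ (M.r - M.rk τ) ≤ (m : ℝ) * ((n : ℝ) ^ (M.r - M.rk τ - 1) * (T * V)) := by
    have e1 : ((sub S2 τ η).card : ℝ) ≤ (m : ℝ) * (Q.card : ℝ) := by exact_mod_cast hm
    have e2 : (Q.card : ℝ) ≤ (n : ℝ) ^ (M.r - M.rk τ - 1) * (Y.card : ℝ) := by exact_mod_cast h2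
    have e3 : (Y.card : ℝ) ≤ (T : ℝ) * (V : ℝ) := by exact_mod_cast h5
    refine h1.trans (e1.trans ?_)
    refine mul_le_mul_of_nonneg_left (e2.trans ?_) (Nat.cast_nonneg _)
    exact mul_le_mul_of_nonneg_left e3 (by positivity)
  have h8 : κ * (n : ℝ) ≤ (m : ℝ) * (T * V) := by
    have e0 : (n : ℝ) ^ (M.r - M.rk τ) = (n : ℝ) ^ (M.r - M.rk τ - 1) * n := by
      rw [← pow_succ]; congr 1; omega
    rw [e0] at h7
    have hp : (0 : ℝ) < (n : ℝ) ^ (M.r - M.rk τ - 1) := by positivity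
    have e1 : (n : ℝ) ^ (M.r - M.rk τ - 1) * (κ * n) ≤ (n : ℝ) ^ (M.r - M.rk τ - 1) * ((m : ℝ) * (T * V)) := by
      calc (n : ℝ) ^ (M.r - M.rk τ - 1) * (κ * n) = κ * ((n : ℝ) ^ (M.r - M.rk τ - 1) * n) := by ring
        _ ≤ _ := h7
        _ = _ := by ring
    exact le_of_mul_le_mul_left e1 hp
  have h9 : (Fintype.card U : ℝ) ≤ (T : ℝ) * n := by exact_mod_cast h.cardU
  have h10 : (Fintype.card U : ℝ) ≤ (m : ℝ) * (CN κ T : ℝ) * (V : ℝ) := by
    have hC : (T : ℝ) ^ 2 / κ ≤ (CN κ T : ℝ) := Nat.le_ceil _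
    have e1 : (n : ℝ) ≤ (m : ℝ) * (T * V) / κ := by
      rw [le_div_iff₀ hκ, mul_comm]; exact h8
    calc (Fintype.card U : ℝ) ≤ (T : ℝ) * n := h9
      _ ≤ (T : ℝ) * ((m : ℝ) * (T * V) / κ) := mul_le_mul_of_nonneg_left e1 (Nat.cast_nonneg _)
      _ = (m : ℝ) * ((T : ℝ) ^ 2 / κ) * V := by ring
      _ ≤ (m : ℝ) * (CN κ T : ℝ) * (V : ℝ) := by
        refine mul_le_mul_of_nonneg_right (mul_le_mul_of_nonneg_left hC (Nat.cast_nonneg _)) (Nat.cast_nonneg _)
  exact_mod_cast h10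

/-- the field `densa` of `RowsIn` (all rows of `S2`) -/
theorem densa (h : EMOut M n T R S U π) (hκ : 0 < κ) (hJ : JCOut M univ κ S S2) (v : N) (hv : v ≠ 0)
    (hn : 0 < n) (m : ℕ) (P : Finset (N → Fin n)) (hP : P ⊆ S2) (hm : S2.card ≤ m * P.card) :
    Fintype.card U ≤ m * CN κ T * (P.image fun ρ => π v (ρ v)).card := by
  classical
  obtain ⟨η, hη⟩ := ne_S2 hn hκ hJ
  have e : sub S2 ∅ η = S2 := by
    ext ρ
    rw [Pool.Agent.MF.mem_sub]
    exact ⟨fun h => h.1, fun h => ⟨h, fun w hw => absurd hw (notMem_empty w)⟩⟩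
  have hv' : ¬ M.InCl ∅ v := by
    rw [Mat.inCl_empty_iff]; exact hv
  exact cnt h hκ hJ ∅ η hη v hv' m P (by rw [e]; exact hP) (by rw [e]; exact hm)

/-- the field `densb` of `RowsIn` (rows of `S2` through the letter `(a, η a)`) -/
theorem densb (h : EMOut M n T R S U π) (hκ : 0 < κ) (hJ : JCOut M univ κ S S2) {a v : N}
    (hav : M.rk {a, v} = 2) (η : N → Fin n) (hη : η ∈ S2) (m : ℕ) (Q : Finset (N → Fin n))
    (hQ : Q ⊆ sub S2 {a} η) (hm : (sub S2 {a} η).card ≤ m * Q.card) :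
    Fintype.card U ≤ m * CN κ T * (Q.image fun ρ => π v (ρ v)).card := by
  refine cnt h hκ hJ {a} η hη v ?_ m Q hQ hm
  intro hc
  have h1 : M.rk {a} ≤ 1 := Mat.rk_singleton_le a
  unfold Mat.InCl at hc
  rw [show (insert v {a} : Finset N) = {a, v} from pair_comm v a, hav] at hc
  omega

end

end Pool.Agent.helper36.MF
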